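import Pool.Agent.Q207.AH.Pk
import Pool.Agent.Q207.AF.Tz

/-!
# Project AH: the count
-/

set_option autoImplicit false

open Matrix Finset PowerSeries

namespace Q207.AH

open Q207.HG (PQ W1_pow_fin ex ex_det Grd Dt cmx)
open Q207.GH
open Pool.Agent.Y123.GN (Gs tl)
open Q207.AF (zM zM_mul satA_of cnt_alg)
open Pool.Agent.Y916

section
variable {k r : ℕ} {n : Fin k → ℕ}

/-- **almost all tuples of algebraic integers are good** -/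
theorem good_alg {T₀ : Polynomial ℤ} {A : Fin r → Fin r → Polynomial ℤ} {h : Fin r → ℚ⟦X⟧} (hG : Af.GFam T₀ A h)
    (hc : Pool.Agent.Y118.UL.Conn h) (m : ℕ) (hm : 1 ≤ m) (e w : ℕ) :
    ∃ c : ℝ, 0 < c ∧ ∃ C : ℝ, 0 ≤ C ∧ ∀ P : ∀ i, Fin (n i) → Fin (n i) → MvPolynomial (Option (Fin r)) ℂ,
      (∀ i a b, (P i a b).totalDegree ≤ e) → ∃ B : Set ℂ, B.Finite ∧ ∀ C₀ : Matrix (Ig n ⊕ Fin w) (Ig n ⊕ Fin w) ℂ,
        ∀ T : ℕ, 1 ≤ T →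
        ({α : Fin k → ℂ | (∀ i, Sl.SInt m T (α i) ∧ α i ∉ B) ∧ ¬ ∀ ℓ : Fin k → ℂ, (∀ i, Complex.exp (ℓ i) = α i) →
          GdA (fun i => zM h (P i) (α i) (ℓ i)) (fun i => Gs h (P i)) C₀}.ncard : ℝ) ≤
          C * (T : ℝ) ^ (-c) * ({α : ℂ | Sl.SInt m T α}.ncard : ℝ) ^ k := by
  classical
  set N := 2 * (Fintype.card (Ig n ⊕ Fin w) ^ 2 + 1) with hN
  obtain ⟨c, hc0, C, hC0, hmain⟩ := cnt_alg (ν := fun i => Fin (n i) × Fin (n i)) hG hc m hm (dg n (Fin w)) e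
    ((2 * Fintype.card (Ig n ⊕ Fin w) ^ 2 + 1) ^ N)
  refine ⟨c, hc0, C, hC0, fun P hP => ?_⟩
  obtain ⟨B, hBf, hB⟩ := hmain (fun i v => P i v.1 v.2) fun i v => hP i v.1 v.2
  refine ⟨B, hBf, fun C₀ T hT => ?_⟩
  obtain ⟨hfin, hrank⟩ := W1_pow_fin C₀ N
  have hfin' : Module.Finite ℚ (Vc C₀) := hfin
  refine le_trans ?_ (hB (Vc C₀) hfin' hrank T hT)
  refine Nat.cast_le.2 (Set.ncard_le_ncard ?_ ?_)
  swap
  · refine (Set.Finite.pi (fun _ : Fin k => Sl.sint_fin m T)).subset ?_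
    intro α hα i _
    exact (hα.1 i).1
  rintro α ⟨hα1, hα2⟩
  refine ⟨hα1, fun hgd => hα2 fun ℓ hℓ => ?_⟩
  intro g hg F hF hF0
  have h5 := hgd ℓ hℓ F hF.1 hF.2 (by
    refine Eq.trans ?_ hF0
    congr 2
    funext v
    show _ = ((1 : Matrix (Fin (n v.1)) (Fin (n v.1)) ℂ) * zM h (P v.1) (α v.1) (ℓ v.1)) v.2.1 v.2.2
    rw [Matrix.one_mul]
    rfl) (fun i => tl (P i) (g i)) fun i => satA_of (hg i).1
  refine Eq.trans ?_ h5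
  congr 2
  funext v
  exact (zM_mul h (P v.1) (g v.1) _ _ v.2).symm

end

end Q207.AH
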