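import Pool.Agent.Q207.AH.Gx

/-!
# Project AH: systems of classes closed under exterior products
-/

set_option autoImplicit false

open Matrix Finset

namespace Q207.AH

open Q207.HT (mix lft rgt)

variable {I K J : Type}

/-- closed under exterior products -/
def CyP (Alg : ∀ q : ℕ, Submodule ℚ ((Fin q → I) → ℚ)) : Prop :=
  (fun _ => (1 : ℚ)) ∈ Alg 0 ∧ ∀ (p q r : ℕ) (e : Fin p ⊕ Fin q ≃ Fin r) (u : (Fin p → I) → ℚ) (v : (Fin q → I) → ℚ),
    u ∈ Alg p → v ∈ Alg q → (fun x => u (fun a => x (e (Sum.inl a))) * v fun a => x (e (Sum.inr a))) ∈ Alg r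

/-- the last factor -/
noncomputable def spl {l : ℕ} (s : Fin (l + 1) → ℕ) : (Σ j : Fin l, Fin (s j.castSucc)) ⊕ Fin (s (Fin.last l)) ≃ Σ j, Fin (s j) :=
  Equiv.ofBijective (Sum.elim (fun x => (⟨x.1.castSucc, x.2⟩ : Σ j, Fin (s j))) fun a => ⟨Fin.last l, a⟩) (by
    constructor
    · rintro (⟨j, a⟩ | a) (⟨j', a'⟩ | a') h
      · simp only [Sum.elim_inl, Sigma.mk.inj_iff] at h
        obtain ⟨h1, h2⟩ := h
        have h3 := Fin.castSucc_injective l h1
        subst h3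
        rw [eq_of_heq h2]
      · simp only [Sum.elim_inl, Sum.elim_inr, Sigma.mk.inj_iff] at h
        exact absurd h.1 (Fin.castSucc_lt_last j).ne
      · simp only [Sum.elim_inl, Sum.elim_inr, Sigma.mk.inj_iff] at h
        exact absurd h.1.symm (Fin.castSucc_lt_last j').ne
      · simp only [Sum.elim_inr, Sigma.mk.inj_iff, heq_eq_eq, true_and] at h
        rw [h]
    · rintro ⟨j, a⟩
      induction j using Fin.lastCases with
      | last => exact ⟨Sum.inr a, rfl⟩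
      | cast j => exact ⟨Sum.inl ⟨j, a⟩, rfl⟩)

theorem cy_prod {Alg : ∀ q : ℕ, Submodule ℚ ((Fin q → I) → ℚ)} (h : CyP Alg) : ∀ (l : ℕ) (s : Fin l → ℕ)
    (v : ∀ j, (Fin (s j) → I) → ℚ) (_ : ∀ j, v j ∈ Alg (s j)) (r : ℕ) (e : (Σ j, Fin (s j)) ≃ Fin r),
    (fun x : Fin r → I => ∏ j, v j fun a => x (e ⟨j, a⟩)) ∈ Alg r := by
  intro l
  induction l with
  | zero =>
    intro s v _ r e
    have hr : r = 0 := by
      have h1 := Fintype.card_congr e
      simpa using h1.symm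
    subst hr
    have h1 : (fun x : Fin 0 → I => ∏ j, v j fun a => x (e ⟨j, a⟩)) = fun _ => 1 := by
      funext x
      exact Finset.prod_of_isEmpty _
    rw [h1]
    exact h.1
  | succ l ih =>
    intro s v hv r e
    set r₁ := Fintype.card (Σ j : Fin l, Fin (s j.castSucc))
    let e₁ : (Σ j : Fin l, Fin (s j.castSucc)) ≃ Fin r₁ := Fintype.equivFin _
    let e₂ : Fin r₁ ⊕ Fin (s (Fin.last l)) ≃ Fin r := ((Equiv.sumCongr e₁.symm (Equiv.refl _)).trans (spl s)).trans e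
    have h1 := ih (fun j => s j.castSucc) (fun j => v j.castSucc) (fun j => hv j.castSucc) r₁ e₁
    have h2 := h.2 _ _ _ e₂ _ _ h1 (hv (Fin.last l))
    convert h2 using 1
    funext x
    rw [Fin.prod_univ_castSucc]
    congr 1
    refine prod_congr rfl fun j _ => ?_
    congr 1
    funext a
    congr 1
    show _ = e (spl s ((Equiv.sumCongr e₁.symm (Equiv.refl _)) (Sum.inl (e₁ ⟨j, a⟩))))
    rw [Equiv.sumCongr_apply, Sum.map_inl, Equiv.symm_apply_apply]
    rfl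

theorem cy_mix {Alg : ∀ q : ℕ, Submodule ℚ ((Fin q → K ⊕ J) → ℚ)} (h : CyP Alg) {l q s₀ : ℕ} {s : Fin l → ℕ}
    (e : (Σ j, Fin (s j)) ⊕ Fin s₀ ≃ Fin q) (v : ∀ j, (Fin (s j) → K) → ℚ) (c : (Fin s₀ → J) → ℚ)
    (hv : ∀ j, lft (J := J) (v j) ∈ Alg (s j)) (hc : rgt (K := K) c ∈ Alg s₀) : mix e v c ∈ Alg q := by
  set r₁ := Fintype.card (Σ j : Fin l, Fin (s j))
  let e₁ : (Σ j : Fin l, Fin (s j)) ≃ Fin r₁ := Fintype.equivFin _
  let e₂ : Fin r₁ ⊕ Fin s₀ ≃ Fin q := (Equiv.sumCongr e₁.symm (Equiv.refl _)).trans e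
  have h1 := cy_prod h l s (fun j => lft (v j)) hv r₁ e₁
  have h2 := h.2 _ _ _ e₂ _ _ h1 hc
  convert h2 using 1
  funext x
  unfold mix
  congr 1
  refine prod_congr rfl fun j _ => ?_
  congr 1
  funext a
  congr 1
  show _ = e ((Equiv.sumCongr e₁.symm (Equiv.refl _)) (Sum.inl (e₁ ⟨j, a⟩)))
  rw [Equiv.sumCongr_apply, Sum.map_inl, Equiv.symm_apply_apply]

end Q207.AH
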