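import Pool.Agent.Q207.AH.Cy
import Pool.Agent.Q162.HT.StA
import Pool.Agent.Q149.HT.Fgen

/-!
# Project AH: the first fundamental theorem with explicit generators
-/

set_option autoImplicit false

open Finset Matrix

namespace Q207.AH

open Q207.DB (Labels Letter form dual dual_fst prodT prodOf detOf pairOf algT actM actM_apply actM_prodT actM_comp actM_one Jo Jo_sq
  exists_S Okf BD dual_of_orth dual_of_not lt_rev even_of sum_two)
open Q207.HG (hB)
open Q207.HT (lieA InvL InLD)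
open Q207.GH (Hs pcl pcl_apply mem_hB_of)
open Q162.HT (swapL')

variable {k : ℕ} {n : Fin k → ℕ}

section

variable (B : ∀ i : Fin k, Matrix (Fin (n i)) (Fin (n i)) ℂ)

open Classical in
/-- the labels -/
noncomputable def Lb : Labels (Fin k) where
  star i := i
  star_star _ := rfl
  orth i := decide ((B i)ᵀ = B i)
  orth_star _ _ := rfl
  dim := n
  dim_star _ := rfl

open Classical in
/-- the signs -/
noncomputable def eb (x : Letter (Lb B)) : ℂ :=
  if (B x.1)ᵀ = B x.1 then 1 else if (x.2 : ℕ) < ((Fin.rev x.2 : Fin (n x.1)) : ℕ) then 1 else -1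

lemma orth_iff (i : Fin k) : (Lb B).orth i = true ↔ (B i)ᵀ = B i := by
  classical
  show decide ((B i)ᵀ = B i) = true ↔ _
  rw [decide_eq_true_iff]

lemma dual_o {i : Fin k} (ho : (B i)ᵀ = B i) (a : Fin (n i)) : dual (⟨i, a⟩ : Letter (Lb B)) = ⟨i, a⟩ :=
  dual_of_orth ((orth_iff B i).2 ho)

lemma dual_n {i : Fin k} (ho : ¬ (B i)ᵀ = B i) (a : Fin (n i)) :
    dual (⟨i, a⟩ : Letter (Lb B)) = ⟨i, (Fin.rev a : Fin (n i))⟩ := by
  rw [dual_of_not (fun h => ho ((orth_iff B i).1 h))]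
  rfl

/-- the form -/
noncomputable def fmb : Matrix (Σ i, Fin (n i)) (Σ i, Fin (n i)) ℂ := form (eb B)

lemma form_bd : fmb B = blockDiagonal' (fun i => Jo B i) := by
  classical
  ext ⟨i, a⟩ ⟨j, b⟩
  by_cases h : i = j
  · subst h
    rw [blockDiagonal'_apply_eq]
    show (if (⟨i, b⟩ : Letter (Lb B)) = dual ⟨i, a⟩ then eb B ⟨i, a⟩ else 0) = Jo B i a b
    by_cases ho : (B i)ᵀ = B i
    · have h2 : eb B ⟨i, a⟩ = 1 := if_pos ho
      unfold Jo
      rw [if_pos ho, Matrix.one_apply, dual_o B ho, h2]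
      refine if_congr ⟨fun h => (eq_of_heq (Sigma.mk.inj_iff.1 h).2).symm, fun h => by rw [h]⟩ rfl rfl
    · have h2 : eb B ⟨i, a⟩ = if (a : ℕ) < ((Fin.rev (a : Fin (n i)) : Fin (n i)) : ℕ) then 1 else -1 := if_neg ho
      unfold Jo
      rw [if_neg ho]
      show _ = if b = (Fin.rev (a : Fin (n i)) : Fin (n i)) then (if (a : ℕ) < (b : ℕ) then (1 : ℂ) else -1) else 0
      rw [dual_n B ho, h2]
      by_cases h3 : b = (Fin.rev (a : Fin (n i)) : Fin (n i))
      · rw [if_pos h3, if_pos (by rw [h3]), h3]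
      · rw [if_neg h3, if_neg]
        intro h4
        exact h3 (eq_of_heq (Sigma.mk.inj_iff.1 h4).2)
  · rw [blockDiagonal'_apply_ne _ _ _ h]
    show (if (⟨j, b⟩ : Letter (Lb B)) = dual ⟨i, a⟩ then eb B ⟨i, a⟩ else 0) = 0
    rw [if_neg]
    intro h2
    have h3 := congrArg Sigma.fst h2
    rw [dual_fst] at h3
    exact h h3.symm

end

lemma inLD_bd {B : ∀ i : Fin k, Matrix (Fin (n i)) (Fin (n i)) ℂ} {X : Matrix (Σ i, Fin (n i)) (Σ i, Fin (n i)) ℂ}
    (hX : InLD (eb B) X) :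
    ∃ D : ∀ i, Matrix (Fin (n i)) (Fin (n i)) ℂ, X = blockDiagonal' D ∧ ∀ i, D i * Jo B i + Jo B i * (D i)ᵀ = 0 := by
  set D : ∀ i, Matrix (Fin (n i)) (Fin (n i)) ℂ := fun i => Matrix.of fun p p' => X ⟨i, p⟩ ⟨i, p'⟩ with hD
  have hXD : X = blockDiagonal' D := by
    ext ⟨i, p⟩ ⟨j, p'⟩
    by_cases h : i = j
    · subst h
      rw [blockDiagonal'_apply_eq]
      rfl
    · rw [blockDiagonal'_apply_ne _ _ _ h]
      exact hX.block _ _ h
  have h2 : X * fmb B + fmb B * Xᵀ = 0 := hX.form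
  rw [form_bd, hXD, blockDiagonal'_transpose, ← blockDiagonal'_mul, ← blockDiagonal'_mul, ← blockDiagonal'_add] at h2
  have h3 := blockDiagonal'_injective (h2.trans blockDiagonal'_zero.symm)
  exact ⟨D, hXD, fun i => congrFun h3 i⟩

/-- the determinant tensor -/
def dtR (R : Type) [CommRing R] (i : Fin k) (w : Fin (n i) → Σ i, Fin (n i)) : R :=
  (Matrix.of fun a b : Fin (n i) => if w a = ⟨i, b⟩ then (1 : R) else 0).det

lemma actM_det (D : ∀ i, Matrix (Fin (n i)) (Fin (n i)) ℂ) (i : Fin k) :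
    actM (fun _ : Fin (n i) => (blockDiagonal' D : Matrix (Σ i, Fin (n i)) (Σ i, Fin (n i)) ℂ)) (dtR ℂ i) = (D i).det • dtR ℂ i := by
  classical
  set g := (blockDiagonal' D : Matrix (Σ i, Fin (n i)) (Σ i, Fin (n i)) ℂ) with hg
  funext w
  rw [actM_apply, Pi.smul_apply, smul_eq_mul]
  have h1 : (D i).det * dtR ℂ i w = (Matrix.of fun a b : Fin (n i) => g (w a) ⟨i, b⟩).det := by
    have h2 : (Matrix.of fun a b : Fin (n i) => g (w a) ⟨i, b⟩) =
        (Matrix.of fun a b : Fin (n i) => if w a = ⟨i, b⟩ then (1 : ℂ) else 0) * D i := by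
      ext a b
      rw [Matrix.mul_apply]
      simp only [Matrix.of_apply, ite_mul, one_mul, zero_mul]
      rcases hwa : w a with ⟨j, c⟩
      by_cases h3 : j = i
      · subst h3
        rw [sum_eq_single c]
        · rw [if_pos rfl, hg, blockDiagonal'_apply_eq]
        · intro c' _ hc'
          rw [if_neg]
          intro h4
          exact hc' (eq_of_heq (Sigma.mk.inj_iff.1 h4).2).symm
        · intro h4
          exact absurd (mem_univ _) h4
      · rw [hg, blockDiagonal'_apply_ne _ _ _ h3]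
        refine (sum_eq_zero fun c' _ => ?_).symm
        rw [if_neg]
        intro h4
        exact h3 (Sigma.mk.inj_iff.1 h4).1
    rw [h2, Matrix.det_mul, mul_comm]
    rfl
  rw [h1]
  have h5 : (Matrix.of fun a b : Fin (n i) => g (w a) ⟨i, b⟩) =
      fun a => ∑ y : Σ i, Fin (n i), g (w a) y • (fun b : Fin (n i) => if y = ⟨i, b⟩ then (1 : ℂ) else 0) := by
    funext a b
    rw [Finset.sum_apply]
    simp only [Pi.smul_apply, smul_eq_mul, mul_ite, mul_one, mul_zero, sum_ite_eq', mem_univ, if_true]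
    rfl
  have h6 := (Matrix.detRowAlternating (n := Fin (n i)) (R := ℂ)).toMultilinearMap.map_sum
    (fun (a : Fin (n i)) (y : Σ i, Fin (n i)) => g (w a) y • (fun b : Fin (n i) => if y = ⟨i, b⟩ then (1 : ℂ) else 0))
  have h7 : (Matrix.of fun a b : Fin (n i) => g (w a) ⟨i, b⟩).det =
      ∑ v : Fin (n i) → Σ i, Fin (n i), (Matrix.detRowAlternating (n := Fin (n i)) (R := ℂ)).toMultilinearMap
        (fun a => g (w a) (v a) • (fun b : Fin (n i) => if v a = ⟨i, b⟩ then (1 : ℂ) else 0)) := by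
    rw [h5]
    exact h6
  rw [h7]
  refine sum_congr rfl fun v _ => ?_
  rw [MultilinearMap.map_smul_univ, smul_eq_mul]
  rfl

lemma actM_two {K : Type} [Fintype K] (g P : Matrix K K ℂ) :
    actM (fun _ : Fin 2 => g) (fun w => P (w 0) (w 1)) = fun w => (g * P * gᵀ) (w 0) (w 1) := by
  funext w
  rw [actM_apply, sum_two, Matrix.mul_apply, sum_comm]
  refine sum_congr rfl fun z _ => ?_
  rw [Matrix.mul_apply, sum_mul]
  refine sum_congr rfl fun y _ => ?_
  rw [Fin.prod_univ_two, Matrix.transpose_apply]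
  show g (w 0) y * g (w 1) z * P y z = _
  ring

/-- products of determinants and of classes of forms -/
noncomputable def prodX (B : ∀ i : Fin k, Matrix (Fin (n i)) (Fin (n i)) ℂ) {κ : Type} {l p : ℕ} (μ : Fin l → Fin k) (ν : Fin p → Fin k)
    (e : (Σ j : Fin l, Fin (n (μ j))) ⊕ (Fin p × Fin 2) ≃ κ) (w : κ → Σ i, Fin (n i)) : ℂ :=
  (∏ j, dtR ℂ (μ j) fun a => w (e (Sum.inl ⟨j, a⟩))) *
    ∏ q, pcl (fun i => (B i)⁻¹) (ν q) (w (e (Sum.inr (q, 0)))) (w (e (Sum.inr (q, 1))))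

/-- products of determinants and of classes of the standard forms -/
noncomputable def prodJ (B : ∀ i : Fin k, Matrix (Fin (n i)) (Fin (n i)) ℂ) {κ : Type} {l p : ℕ} (μ : Fin l → Fin k) (ν : Fin p → Fin k)
    (e : (Σ j : Fin l, Fin (n (μ j))) ⊕ (Fin p × Fin 2) ≃ κ) (w : κ → Σ i, Fin (n i)) : ℂ :=
  (∏ j, dtR ℂ (μ j) fun a => w (e (Sum.inl ⟨j, a⟩))) *
    ∏ q, pcl (fun i => Jo B i) (ν q) (w (e (Sum.inr (q, 0)))) (w (e (Sum.inr (q, 1))))

theorem fftJ {B : ∀ i : Fin k, Matrix (Fin (n i)) (Fin (n i)) ℂ} (hOk : Okf B) (hne : ∀ i, B i ≠ 0) {κ : Type} [Fintype κ]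
    [DecidableEq κ] {x : (κ → Σ i, Fin (n i)) → ℂ}
    (h1 : ∀ X : Matrix (Σ i, Fin (n i)) (Σ i, Fin (n i)) ℂ, InLD (eb B) X → lieA X x = 0) :
    x ∈ Submodule.span ℂ {y | ∃ (l p : ℕ) (μ : Fin l → Fin k) (ν : Fin p → Fin k)
      (e : (Σ j : Fin l, Fin (n (μ j))) ⊕ (Fin p × Fin 2) ≃ κ), (∀ j, (B (μ j))ᵀ = B (μ j)) ∧ y = prodJ B μ ν e} := by
  classical
  have hε : ∀ x : Letter (Lb B), ¬ (Lb B).orth x.1 = true → eb B (dual x) = -eb B x := by
    rintro ⟨i, a⟩ ho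
    have ho' : ¬ (B i)ᵀ = B i := fun h => ho ((orth_iff B i).2 h)
    rw [dual_n B ho']
    have h2 : ∀ a : Fin (n i), eb B ⟨i, a⟩ = if (a : ℕ) < ((Fin.rev a : Fin (n i)) : ℕ) then 1 else -1 := fun a => if_neg ho'
    rw [h2, h2 a, Fin.rev_rev]
    have h4 := lt_rev (even_of hOk (hne i) ho') a
    by_cases h5 : (a : ℕ) < ((Fin.rev a : Fin (n i)) : ℕ)
    · rw [if_neg (h4.1 h5), if_pos h5]
    · rw [if_pos (by_contra fun h6 => h5 (h4.2 h6)), if_neg h5, neg_neg]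
  have hε0 : ∀ x, eb B x ≠ 0 := by
    rintro ⟨i, a⟩
    unfold eb
    split_ifs
    · norm_num
    · norm_num
    · norm_num
  have h2 : x ∈ algT (Lb B) (eb B) κ := Q149.HT.fftL hε hε0 h1
  have h3 : x ∈ Submodule.span ℂ {y : (κ → Σ i, Fin (n i)) → ℂ | ∃ (l p : ℕ) (μ : Fin l → Fin k) (ν : Fin p → Fin k)
      (e : (Σ j : Fin l, Fin (n (μ j))) ⊕ (Fin p × Fin 2) ≃ κ), (∀ j, (Lb B).star (μ j) ≠ μ j ∨ (Lb B).orth (μ j) = true) ∧
        y = prodOf (Λ := Lb B) (eb B) μ ν e} := h2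
  refine Submodule.span_mono ?_ h3
  rintro _ ⟨l, p, μ, ν, e, hμ, rfl⟩
  refine ⟨l, p, μ, ν, e, fun j => ?_, ?_⟩
  · rcases hμ j with h10 | h10
    · exact absurd rfl h10
    · exact (orth_iff B _).1 h10
  · funext w
    unfold prodOf prodJ
    have e1 : ∀ (i : Fin k) (x y : Σ i, Fin (n i)), pairOf (eb B) i x y = pcl (fun i => Jo B i) i x y := by
      rintro i ⟨j, a⟩ ⟨j', b⟩
      rw [pcl_apply]
      show (if j = i then fmb B ⟨j, a⟩ ⟨j', b⟩ else 0) = _
      rw [form_bd]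
    congr 1
    exact prod_congr rfl fun q _ => e1 _ _ _

/-- **The first fundamental theorem with explicit generators.** -/
theorem fftX {B : ∀ i : Fin k, Matrix (Fin (n i)) (Fin (n i)) ℂ} (hB2 : ∀ i, IsUnit (B i).det)
    (hB1 : ∀ i, (B i)ᵀ = -B i ∨ (B i)ᵀ = B i) (hn : ∀ i, 0 < n i) {κ : Type} [Fintype κ] [DecidableEq κ]
    {x : (κ → Σ i, Fin (n i)) → ℂ} (hx : InvL (Hs B) x) :
    x ∈ Submodule.span ℂ {y | ∃ (l p : ℕ) (μ : Fin l → Fin k) (ν : Fin p → Fin k)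
      (e : (Σ j : Fin l, Fin (n (μ j))) ⊕ (Fin p × Fin 2) ≃ κ), (∀ j, (B (μ j))ᵀ = B (μ j)) ∧ y = prodX B μ ν e} := by
  classical
  have hne : ∀ i, B i ≠ 0 := by
    intro i h
    have h1 := hB2 i
    have : Nonempty (Fin (n i)) := ⟨⟨0, hn i⟩⟩
    rw [h, Matrix.det_zero] at h1
    exact not_isUnit_zero h1
  have hOk : Okf B := fun i _ => ⟨(Matrix.isUnit_iff_isUnit_det _).2 (hB2 i), hB1 i⟩
  choose S hS using fun i => exists_S hOk i (hne i)
  have hSd : ∀ i, IsUnit (S i).det := by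
    intro i
    have h1 := hB2 i
    rw [← hS i, Matrix.det_mul, Matrix.det_mul] at h1
    exact isUnit_of_mul_isUnit_right h1
  have hS1 : ∀ i, S i * (S i)⁻¹ = 1 := fun i => Matrix.mul_nonsing_inv _ (hSd i)
  have hS2 : ∀ i, (S i)⁻¹ * S i = 1 := fun i => Matrix.nonsing_inv_mul _ (hSd i)
  set Sb : Matrix (Σ i, Fin (n i)) (Σ i, Fin (n i)) ℂ := blockDiagonal' S with hSb
  set Si : Matrix (Σ i, Fin (n i)) (Σ i, Fin (n i)) ℂ := blockDiagonal' fun i => (S i)⁻¹ with hSi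
  have hSS : Si * Sb = 1 := by
    rw [hSi, hSb, ← blockDiagonal'_mul]
    refine Eq.trans (congrArg blockDiagonal' (funext fun j => ?_)) blockDiagonal'_one
    exact hS2 j
  have h1 : ∀ X : Matrix (Σ i, Fin (n i)) (Σ i, Fin (n i)) ℂ, InLD (eb B) X → lieA X (actM (fun _ : κ => Sb) x) = 0 := by
    intro X hX
    obtain ⟨D, hXD, h4⟩ := inLD_bd hX
    set Y : ∀ i, Matrix (Fin (n i)) (Fin (n i)) ℂ := fun i => (S i)⁻¹ * D i * S i with hY
    have hYB : ∀ i, (Y i)ᵀ * B i + B i * Y i = 0 := by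
      intro i
      obtain ⟨c, hc, hJ⟩ := Jo_sq hOk (hne i)
      have e2 : (D i)ᵀ * Jo B i + Jo B i * D i = 0 := swapL' hc hJ (h4 i)
      show ((S i)⁻¹ * D i * S i)ᵀ * B i + B i * ((S i)⁻¹ * D i * S i) = 0
      rw [Matrix.transpose_mul, Matrix.transpose_mul]
      have e5 : ((S i)⁻¹)ᵀ * (S i)ᵀ = 1 := by rw [← Matrix.transpose_mul, hS1, Matrix.transpose_one]
      have e3 : (S i)ᵀ * ((D i)ᵀ * ((S i)⁻¹)ᵀ) * B i = (S i)ᵀ * ((D i)ᵀ * Jo B i) * S i := by
        calc (S i)ᵀ * ((D i)ᵀ * ((S i)⁻¹)ᵀ) * B i =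
              (S i)ᵀ * ((D i)ᵀ * ((S i)⁻¹)ᵀ) * ((S i)ᵀ * Jo B i * S i) := by rw [hS i]
          _ = (S i)ᵀ * (D i)ᵀ * (((S i)⁻¹)ᵀ * (S i)ᵀ) * Jo B i * S i := by simp only [Matrix.mul_assoc]
          _ = (S i)ᵀ * (D i)ᵀ * Jo B i * S i := by rw [e5, Matrix.mul_one]
          _ = _ := by simp only [Matrix.mul_assoc]
      have e4 : B i * ((S i)⁻¹ * D i * S i) = (S i)ᵀ * (Jo B i * D i) * S i := by
        calc B i * ((S i)⁻¹ * D i * S i) =
              (S i)ᵀ * Jo B i * S i * ((S i)⁻¹ * D i * S i) := by rw [hS i]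
          _ = (S i)ᵀ * Jo B i * (S i * (S i)⁻¹) * D i * S i := by simp only [Matrix.mul_assoc]
          _ = (S i)ᵀ * Jo B i * D i * S i := by rw [hS1, Matrix.mul_one]
          _ = _ := by simp only [Matrix.mul_assoc]
      rw [e3, e4, ← Matrix.add_mul, ← Matrix.mul_add, e2, Matrix.mul_zero, Matrix.zero_mul]
    have h5 : lieA (blockDiagonal' Y) x = 0 := hx _ ⟨Y, fun i => mem_hB_of (hB2 i) (hYB i), rfl⟩
    rw [hXD]
    rw [Pool.Agent.Q195.HT.lieA_actM (g := blockDiagonal' Y) (fun _ => ?_), h5, map_zero]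
    rw [hSb, ← blockDiagonal'_mul, ← blockDiagonal'_mul]
    congr 1
    funext i
    show D i * S i = S i * ((S i)⁻¹ * D i * S i)
    rw [← Matrix.mul_assoc, ← Matrix.mul_assoc, hS1, Matrix.one_mul]
  have h2 := fftJ hOk hne h1
  have h3 : x = actM (fun _ : κ => Si) (actM (fun _ : κ => Sb) x) := by
    rw [actM_comp]
    simp only [hSS]
    rw [actM_one]
  rw [h3]
  set T := Submodule.span ℂ {y | ∃ (l p : ℕ) (μ : Fin l → Fin k) (ν : Fin p → Fin k)
      (e : (Σ j : Fin l, Fin (n (μ j))) ⊕ (Fin p × Fin 2) ≃ κ), (∀ j, (B (μ j))ᵀ = B (μ j)) ∧ y = prodX B μ ν e} with hT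
  have h6 : Submodule.span ℂ {y | ∃ (l p : ℕ) (μ : Fin l → Fin k) (ν : Fin p → Fin k)
      (e : (Σ j : Fin l, Fin (n (μ j))) ⊕ (Fin p × Fin 2) ≃ κ), (∀ j, (B (μ j))ᵀ = B (μ j)) ∧ y = prodJ B μ ν e} ≤
      T.comap (actM fun _ : κ => Si) := by
    rw [Submodule.span_le]
    rintro y ⟨l, p, μ, ν, e, hμ, rfl⟩
    refine Submodule.mem_comap.2 ?_
    set s : Fin l ⊕ Fin p → ℕ := Sum.elim (fun j => n (μ j)) fun _ => 2 with hs
    set e' : (Σ a : Fin l ⊕ Fin p, Fin (s a)) ≃ κ :=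
      ((Equiv.sumSigmaDistrib (fun a => Fin (s a))).trans (Equiv.sumCongr (Equiv.refl _)
        (Equiv.sigmaEquivProd (Fin p) (Fin 2)))).trans e with he'
    set u : ∀ a : Fin l ⊕ Fin p, (Fin (s a) → Σ i, Fin (n i)) → ℂ := fun a => match a with
      | Sum.inl j => dtR ℂ (μ j)
      | Sum.inr q => fun w => pcl (fun i => Jo B i) (ν q) (w (0 : Fin 2)) (w (1 : Fin 2)) with hu
    have h7 : prodJ B μ ν e = prodT e' u := by
      funext w
      unfold prodJ prodT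
      rw [Fintype.prod_sum_type]
      rfl
    have h8 : ∀ i, ∃ c : ℂ, ∀ w : Fin 2 → Σ i, Fin (n i), (Si * pcl (fun i => Jo B i) i * Siᵀ) (w 0) (w 1) =
        c * pcl (fun i => (B i)⁻¹) i (w 0) (w 1) := by
      intro i
      obtain ⟨c, hc, hJ⟩ := Jo_sq hOk (hne i)
      have e1 : (S i)⁻¹ * Jo B i * ((S i)⁻¹)ᵀ = c • (B i)⁻¹ := by
        have e2 : (S i)⁻¹ * Jo B i * ((S i)⁻¹)ᵀ * B i = c • 1 := by
          have e3 : ((S i)⁻¹)ᵀ * (S i)ᵀ = 1 := by rw [← Matrix.transpose_mul, hS1, Matrix.transpose_one]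
          calc (S i)⁻¹ * Jo B i * ((S i)⁻¹)ᵀ * B i = (S i)⁻¹ * Jo B i * ((S i)⁻¹)ᵀ * ((S i)ᵀ * Jo B i * S i) := by rw [hS i]
            _ = (S i)⁻¹ * Jo B i * (((S i)⁻¹)ᵀ * (S i)ᵀ) * Jo B i * S i := by simp only [Matrix.mul_assoc]
            _ = (S i)⁻¹ * (Jo B i * Jo B i) * S i := by
                rw [e3, Matrix.mul_one]
                simp only [Matrix.mul_assoc]
            _ = c • 1 := by rw [hJ, Matrix.mul_smul, Matrix.smul_mul, Matrix.mul_one, hS2]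
        calc (S i)⁻¹ * Jo B i * ((S i)⁻¹)ᵀ = (S i)⁻¹ * Jo B i * ((S i)⁻¹)ᵀ * (B i * (B i)⁻¹) := by
              rw [Matrix.mul_nonsing_inv _ (hB2 i), Matrix.mul_one]
          _ = ((S i)⁻¹ * Jo B i * ((S i)⁻¹)ᵀ * B i) * (B i)⁻¹ := by simp only [Matrix.mul_assoc]
          _ = _ := by rw [e2, Matrix.smul_mul, Matrix.one_mul]
      have e2 : Si * pcl (fun i => Jo B i) i * Siᵀ = c • pcl (fun i => (B i)⁻¹) i := by
        unfold pcl
        rw [hSi, blockDiagonal'_transpose, ← blockDiagonal'_mul, ← blockDiagonal'_mul, ← blockDiagonal'_smul]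
        congr 1
        funext j
        show (S j)⁻¹ * (if j = i then Jo B j else 0) * ((S j)⁻¹)ᵀ = c • (if j = i then (B j)⁻¹ else 0)
        by_cases h : j = i
        · subst h
          rw [if_pos rfl, if_pos rfl]
          exact e1
        · rw [if_neg h, if_neg h, Matrix.mul_zero, Matrix.zero_mul, smul_zero]
      refine ⟨c, fun w => ?_⟩
      rw [e2]
      rfl
    choose c hc using h8
    set v : ∀ a : Fin l ⊕ Fin p, (Fin (s a) → Σ i, Fin (n i)) → ℂ := fun a => match a with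
      | Sum.inl j => dtR ℂ (μ j)
      | Sum.inr q => fun w => pcl (fun i => (B i)⁻¹) (ν q) (w (0 : Fin 2)) (w (1 : Fin 2)) with hv
    have h10 : prodX B μ ν e = prodT e' v := by
      funext w
      unfold prodX prodT
      rw [Fintype.prod_sum_type]
      rfl
    set cc : Fin l ⊕ Fin p → ℂ := Sum.elim (fun j => ((S (μ j))⁻¹).det) fun q => c (ν q) with hcc
    have h11 : ∀ a, actM (fun _ : Fin (s a) => Si) (u a) = cc a • v a := by
      rintro (j | q)
      · exact actM_det (fun i => (S i)⁻¹) (μ j)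
      · refine (actM_two Si (pcl (fun i => Jo B i) (ν q))).trans ?_
        funext w
        exact hc (ν q) w
    have h9 : (prodT e' fun a => actM (fun _ => Si) (u a)) = (∏ a, cc a) • prodX B μ ν e := by
      rw [h10]
      funext w
      rw [Pi.smul_apply, smul_eq_mul]
      unfold prodT
      rw [← prod_mul_distrib]
      refine prod_congr rfl fun a _ => ?_
      exact congrFun (h11 a) _
    rw [h7, actM_prodT]
    rw [h9]
    exact Submodule.smul_mem _ _ (Submodule.subset_span ⟨l, p, μ, ν, e, hμ, rfl⟩)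
  exact h6 h2

end Q207.AH
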