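import Pool.Agent.Q207.AH.Dt1

/-!
# Project AH: Hodge classes are generated by the classes of the forms, the determinants and the Hodge classes of the
second summand
-/

set_option autoImplicit false

open Finset Matrix

namespace Q207.AH

open Q207.DB (Labels Letter form dual prodT detOf BD)
open Q207.HG (hB cmx)
open Q207.HT (lieA lieA_apply InvL InLD qc GenL gensL mix lft rgt)
open Q207.GH

variable {k : ℕ} {n : Fin k → ℕ} {w : ℕ}

/-- the determinants -/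
def IsD (Q : ∀ i, Matrix (Fin (n i)) (Fin (n i)) ℤ) {s : ℕ} (v : (Fin s → Σ i, Fin (n i)) → ℚ) : Prop :=
  ∃ (i : Fin k) (hs : s = n i), (Q i)ᵀ = Q i ∧ ∀ p, v p = dtR ℚ i fun a => p (Fin.cast hs.symm a)

/-- products of generators -/
def Pg (Q : ∀ i, Matrix (Fin (n i)) (Fin (n i)) ℤ) {s : ℕ} (x : (Fin s → Σ i, Fin (n i)) → ℚ) : Prop :=
  ∃ (l : ℕ) (t : Fin l → ℕ) (e : (Σ j, Fin (t j)) ≃ Fin s) (g : ∀ j, (Fin (t j) → Σ i, Fin (n i)) → ℚ),
    (∀ j, IsP Q (g j) ∨ IsD Q (g j)) ∧ x = fun w => ∏ j, g j fun a => w (e ⟨j, a⟩)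

lemma pg_of {Q : ∀ i, Matrix (Fin (n i)) (Fin (n i)) ℤ} {r : ℕ} {L : Type} [Fintype L] {s : L → ℕ} (e : (Σ l, Fin (s l)) ≃ Fin r)
    (u : ∀ l, (Fin (s l) → Σ i, Fin (n i)) → ℚ) (h : ∀ l, IsP Q (u l) ∨ IsD Q (u l)) :
    Pg Q fun w => ∏ l, u l fun a => w (e ⟨l, a⟩) := by
  set η := Fintype.equivFin L
  refine ⟨Fintype.card L, fun j => s (η.symm j), (Equiv.sigmaCongrLeft (β := fun j => Fin (s j)) η.symm).trans e,
    fun j => u (η.symm j), fun j => h _, ?_⟩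
  funext w
  exact Fintype.prod_equiv η _ _ fun j => by
    obtain ⟨j', rfl⟩ := η.symm.surjective j
    rw [Equiv.apply_symm_apply]
    rfl

lemma dtR_cast (i : Fin k) (w : Fin (n i) → Σ i, Fin (n i)) : ((dtR ℚ i w : ℚ) : ℂ) = dtR ℂ i w := by
  unfold dtR
  have h1 := RingHom.map_det (algebraMap ℚ ℂ) (Matrix.of fun a b : Fin (n i) => if w a = ⟨i, b⟩ then (1 : ℚ) else 0)
  refine Eq.trans h1 ?_
  congr 1
  ext a b
  rw [RingHom.mapMatrix_apply, Matrix.map_apply, Matrix.of_apply, Matrix.of_apply]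
  split_ifs
  · exact map_one _
  · exact map_zero _

/-- all flat tensors are combinations of products of the generators -/
theorem inv_span {Q : ∀ i, Matrix (Fin (n i)) (Fin (n i)) ℤ} (hQ : ∀ i, Cl (Q i)) {s : ℕ} {v : (Fin s → Σ i, Fin (n i)) → ℂ}
    (hv : InvL (Hs fun i => ic (Q i)) v) :
    v ∈ Submodule.span ℂ ((fun (x : (Fin s → Σ i, Fin (n i)) → ℚ) p => ((x p : ℚ) : ℂ)) '' {x | Pg Q x}) := by
  classical
  have h1 := fftX (B := fun i => ic (Q i)) (fun i => ic_det (hQ i).2.1) (fun i => by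
    rcases (hQ i).2.2 with h | ⟨h, -⟩
    · exact Or.inl (ic_T h)
    · exact Or.inr (congrArg (fun M : Matrix (Fin (n i)) (Fin (n i)) ℤ => M.map (Int.cast : ℤ → ℂ)) h)) (fun i => (hQ i).1) hv
  refine Submodule.span_mono ?_ h1
  rintro y ⟨l, p, μ, ν, e, hμ, rfl⟩
  set t : Fin l ⊕ Fin p → ℕ := Sum.elim (fun j => n (μ j)) fun _ => 2 with ht
  set e' : (Σ a : Fin l ⊕ Fin p, Fin (t a)) ≃ Fin s :=
    ((Equiv.sumSigmaDistrib (fun a => Fin (t a))).trans (Equiv.sumCongr (Equiv.refl _)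
      (Equiv.sigmaEquivProd (Fin p) (Fin 2)))).trans e with he'
  set u : ∀ a : Fin l ⊕ Fin p, (Fin (t a) → Σ i, Fin (n i)) → ℚ := fun a => match a with
    | Sum.inl j => dtR ℚ (μ j)
    | Sum.inr q => fun w => pcl (fun i => (ir (Q i))⁻¹) (ν q) (w (0 : Fin 2)) (w (1 : Fin 2)) with hu
  refine ⟨fun w => ∏ a, u a fun b => w (e' ⟨a, b⟩), pg_of e' u ?_, ?_⟩
  · rintro (j | q)
    · refine Or.inr ⟨μ j, rfl, ?_, fun p => rfl⟩
      have h2 := hμ j
      ext a b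
      have h3 := congrFun (congrFun h2 a) b
      rw [Matrix.transpose_apply] at h3 ⊢
      have h4 : ((Q (μ j) b a : ℤ) : ℂ) = ((Q (μ j) a b : ℤ) : ℂ) := h3
      exact_mod_cast h4
    · exact Or.inl ⟨ν q, rfl, fun p => rfl⟩
  · funext w
    show ((∏ a, u a (fun b => w (e' ⟨a, b⟩)) : ℚ) : ℂ) = _
    rw [Rat.cast_prod, Fintype.prod_sum_type]
    unfold prodX
    congr 1
    · refine prod_congr rfl fun j _ => ?_
      exact dtR_cast (μ j) _
    · refine prod_congr rfl fun q _ => ?_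
      exact pcQ_cast (fun i => (hQ i).2.1) (ν q) _ _

/-- labels for the determinants -/
def Lo (n : Fin k → ℕ) : Labels (Fin k) where
  star i := i
  star_star _ := rfl
  orth _ := true
  orth_star _ _ := rfl
  dim := n
  dim_star _ := rfl

lemma isD_fl {Q : ∀ i, Matrix (Fin (n i)) (Fin (n i)) ℤ} (hQ : ∀ i, Cl (Q i)) {s : ℕ} {v : (Fin s → Σ i, Fin (n i)) → ℚ}
    (hv : IsD Q v) : Fl Q (qc v) := by
  classical
  obtain ⟨i, rfl, -, hv⟩ := hv
  refine (fl_iff hQ _).2 ?_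
  rintro _ ⟨X, hX, rfl⟩
  have h1 : qc v = dtR ℂ i := by
    funext p
    show ((v p : ℚ) : ℂ) = _
    rw [hv p, dtR_cast]
    rfl
  rw [h1]
  have h2 : InLD (Λ := Lo n) (fun _ => 0) (blockDiagonal' X : Matrix (Σ i, Fin (n i)) (Σ i, Fin (n i)) ℂ) := by
    have h3 : form (Λ := Lo n) (fun _ => 0) = 0 := by
      ext x y
      show (if y = dual x then (0 : ℂ) else 0) = 0
      rw [ite_self]
    refine ⟨?_, ?_, ?_⟩
    · rintro ⟨a, b⟩ ⟨c, d⟩ h
      exact blockDiagonal'_apply_ne _ _ _ h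
    · rw [h3]
      have h5 : (blockDiagonal' X * 0 + 0 * (blockDiagonal' X)ᵀ : Matrix (Σ i, Fin (n i)) (Σ i, Fin (n i)) ℂ) = 0 := by
        rw [Matrix.mul_zero, Matrix.zero_mul, add_zero]
      exact h5
    · intro j _
      have h4 : ∑ a : Fin (n j), (blockDiagonal' X : Matrix (Σ i, Fin (n i)) (Σ i, Fin (n i)) ℂ) ⟨j, a⟩ ⟨j, a⟩ = (X j).trace := by
        refine Finset.sum_congr rfl fun p _ => ?_
        rw [blockDiagonal'_apply_eq]
        rfl
      exact h4.trans (hX j).1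
  exact Q149.HT.det_invL (Λ := Lo n) (Or.inr rfl) h2

lemma pg_fl {Q : ∀ i, Matrix (Fin (n i)) (Fin (n i)) ℤ} (hQ : ∀ i, Cl (Q i)) {s : ℕ} {v : (Fin s → Σ i, Fin (n i)) → ℚ}
    (hv : Pg Q v) : Fl Q (qc v) := by
  classical
  obtain ⟨l, t, e, g, hg, rfl⟩ := hv
  intro X hX
  have h1 : qc (fun w : Fin s → Σ i, Fin (n i) => ∏ j, g j fun a => w (e ⟨j, a⟩)) = prodT e fun j => qc (g j) := by
    funext w
    show ((∏ j, g j (fun a => w (e ⟨j, a⟩)) : ℚ) : ℂ) = _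
    rw [Rat.cast_prod]
    rfl
  rw [h1]
  refine Pool.Agent.Q195.HT.lieA_prodT e fun j => ?_
  rcases hg j with h | h
  · exact isP_fl hQ h X hX
  · exact isD_fl hQ h X hX

/-- generators are trivial -/
lemma gen_triv {K : Type} [Fintype K] (H : Set (Matrix K K ℂ)) : GenL H fun _ => True := by
  intro κ _ _ x hx
  set η := Fintype.equivFin κ
  let e : (Σ _ : Fin 1, Fin (Fintype.card κ)) ≃ κ := (Equiv.uniqueSigma fun _ : Fin 1 => Fin (Fintype.card κ)).trans η.symm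
  refine Submodule.subset_span ⟨1, fun _ => Fintype.card κ, e, fun _ z => x fun a => z (η a), fun _ => ⟨trivial, fun X hX => ?_⟩, ?_⟩
  · funext z
    rw [lieA_apply, Pi.zero_apply]
    have h1 := congrFun (hx X hX) fun a => z (η a)
    rw [lieA_apply, Pi.zero_apply] at h1
    rw [← h1]
    refine (Fintype.sum_equiv η _ _ fun a => ?_).symm
    refine sum_congr rfl fun y _ => ?_
    congr 2
    funext b
    by_cases h : b = a
    · subst h
      rw [Function.update_self, Function.update_self]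
    · rw [Function.update_of_ne h, Function.update_of_ne fun h2 => h (η.injective h2)]
  · funext z
    unfold prodT
    rw [Fin.prod_univ_one]
    show x z = x fun a => z (e ⟨0, η a⟩)
    congr 1
    funext a
    congr 1
    show a = η.symm (η a)
    rw [Equiv.symm_apply_apply]

/-- **Generators for full symplectic and orthogonal groups.** -/
theorem gen_cl3 {Q : ∀ i, Matrix (Fin (n i)) (Fin (n i)) ℤ} (hQ : ∀ i, Cl (Q i)) {q : ℕ}
    {u : (Fin q → (Σ i, Fin (n i)) ⊕ Fin w) → ℚ} {K : ℝ}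
    (hK : ∀ γ : ∀ i, Matrix (Fin (n i)) (Fin (n i)) ℚ, Iso1 Q γ → ∀ p, ‖qc (trl (hat w γ) u) p‖ ≤ K)
    {ΦV : Matrix (Σ i, Fin (n i)) (Σ i, Fin (n i)) ℂ} {ΦW : Matrix (Fin w) (Fin w) ℂ}
    (hu : lieA (fromBlocks ΦV 0 0 ΦW) (qc u) = 0)
    (hfl : ∀ (s : ℕ) (v : (Fin s → Σ i, Fin (n i)) → ℚ), Fl Q (qc v) → lieA ΦV (qc v) = 0) :
    u ∈ Submodule.span ℚ {x | ∃ (l : ℕ) (s : Fin l → ℕ) (s₀ : ℕ) (e : (Σ j, Fin (s j)) ⊕ Fin s₀ ≃ Fin q)
      (v : ∀ j, (Fin (s j) → Σ i, Fin (n i)) → ℚ) (c : (Fin s₀ → Fin w) → ℚ), (∀ j, Pg Q (v j)) ∧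
      lieA ΦW (qc c) = 0 ∧ x = mix e v c} := by
  have h0 := Pool.Agent.Q195.HT.mixed (Σ i, Fin (n i)) (Fin w) (Hs fun i => ic (Q i)) (fun _ => True) (gen_triv _)
    (fun s => {x | Pg Q x}) (fun s _ v hv => inv_span hQ hv) ΦV ΦW (fun s _ v hv => hfl s v (pg_fl hQ hv)) q u (kill_cl hQ hK) hu
  refine Submodule.span_mono ?_ h0
  rintro _ ⟨l, s, s₀, e, v, c, h2, h3, rfl⟩
  exact ⟨l, s, s₀, e, v, c, fun j => (h2 j).2, h3, rfl⟩

section lft

variable {K J : Type}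

lemma lft_inl {s : ℕ} (v : (Fin s → K) → ℚ) (p : Fin s → K) : lft (J := J) v (fun a => Sum.inl (p a)) = v p := by
  unfold lft
  exact dif_pos fun _ => rfl

lemma lft_zero {s : ℕ} (v : (Fin s → K) → ℚ) (p : Fin s → K ⊕ J) {a : Fin s} {b : J} (h : p a = Sum.inr b) : lft v p = 0 := by
  unfold lft
  rw [dif_neg]
  intro h2
  have h3 := h2 a
  rw [h] at h3
  exact absurd h3 (by simp)

lemma lft_prod {l s : ℕ} {t : Fin l → ℕ} (e : (Σ j, Fin (t j)) ≃ Fin s) (g : ∀ j, (Fin (t j) → K) → ℚ) :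
    lft (J := J) (fun w : Fin s → K => ∏ j, g j fun a => w (e ⟨j, a⟩)) = fun w => ∏ j, lft (g j) fun a => w (e ⟨j, a⟩) := by
  funext w
  by_cases h : ∀ a, ∃ b : K, w a = Sum.inl b
  · choose p hp using h
    obtain rfl : w = fun a => Sum.inl (p a) := funext hp
    rw [lft_inl]
    refine prod_congr rfl fun j _ => ?_
    rw [lft_inl (J := J) (g j) fun a => p (e ⟨j, a⟩)]
  · push Not at h
    obtain ⟨a, ha⟩ := h
    obtain ⟨b, hb⟩ : ∃ b, w a = Sum.inr b := by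
      rcases hw : w a with c | c
      · exact absurd hw (ha c)
      · exact ⟨c, rfl⟩
    rw [lft_zero _ _ hb]
    obtain ⟨⟨j, c⟩, rfl⟩ := e.surjective a
    exact (prod_eq_zero (mem_univ j) (lft_zero (g j) (fun a => w (e ⟨j, a⟩)) hb)).symm

end lft

/-- membership in systems of classes -/
theorem pg_mem {Q : ∀ i, Matrix (Fin (n i)) (Fin (n i)) ℤ} {Alg : ∀ q : ℕ, Submodule ℚ ((Fin q → (Σ i, Fin (n i)) ⊕ Fin w) → ℚ)}
    (h : CyP Alg) {s : ℕ} {v : (Fin s → Σ i, Fin (n i)) → ℚ} (hv : Pg Q v)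
    (h1 : ∀ (t : ℕ) (z : (Fin t → Σ i, Fin (n i)) → ℚ), t ≤ s → IsP Q z ∨ IsD Q z → lft (J := Fin w) z ∈ Alg t) :
    lft (J := Fin w) v ∈ Alg s := by
  obtain ⟨l, t, e, g, hg, rfl⟩ := hv
  rw [lft_prod]
  refine cy_prod h l t (fun j => lft (g j)) (fun j => h1 _ _ ?_ (hg j)) s e
  have h2 := Fintype.card_congr e
  have h3 : ∑ j, t j = s := by simpa using h2
  rw [← h3]
  exact Finset.single_le_sum (f := t) (fun _ _ => Nat.zero_le _) (Finset.mem_univ j)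

end Q207.AH
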