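import Pool.Agent.Q207.GH.So3
import Pool.Agent.Q207.GP.D

/-!
# Project AH: generators for full symplectic and orthogonal groups, the classes of the forms explicitly
-/

set_option autoImplicit false

open Matrix Finset

namespace Q207.AH

open Q207.HG (cmx)
open Q207.HT (lieA lieA_apply qc InvL GenL mix lft rgt)
open Q207.GH

variable {k : ℕ} {n : Fin k → ℕ} {w : ℕ}

/-- the class of one form -/
def IsP (Q : ∀ i, Matrix (Fin (n i)) (Fin (n i)) ℤ) {s : ℕ} (v : (Fin s → Σ i, Fin (n i)) → ℚ) : Prop :=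
  ∃ (i : Fin k) (hs : s = 2), ∀ p, v p = pcl (fun j => (ir (Q j))⁻¹) i (p ⟨0, by omega⟩) (p ⟨1, by omega⟩)

/-- the generators -/
def Ge (Q : ∀ i, Matrix (Fin (n i)) (Fin (n i)) ℤ) {s : ℕ} (v : (Fin s → Σ i, Fin (n i)) → ℚ) : Prop :=
  IsP Q v ∨ ((∃ i, (Q i)ᵀ = Q i ∧ s = n i) ∧ Fl Q (qc v))

lemma isP_fl {Q : ∀ i, Matrix (Fin (n i)) (Fin (n i)) ℤ} (hQ : ∀ i, Cl (Q i)) {s : ℕ} {v : (Fin s → Σ i, Fin (n i)) → ℚ}
    (hv : IsP Q v) : Fl Q (qc v) := by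
  obtain ⟨i, rfl, hv⟩ := hv
  intro X hX
  have h1 : qc v = fun p : Fin 2 → Σ i, Fin (n i) => cmx (pcl (fun j => (ir (Q j))⁻¹) i) (p 0) (p 1) := by
    funext p
    show ((v p : ℚ) : ℂ) = _
    rw [hv p]
    rfl
  rw [h1]
  funext p
  rw [lieA_two]
  have hmul : ∀ A B : Matrix (Σ i, Fin (n i)) (Σ i, Fin (n i)) ℚ, cmx (A * B) = cmx A * cmx B := fun A B => Matrix.map_mul
  have h2 : (cmx (blockDiagonal' X))ᵀ = cmx (blockDiagonal' X)ᵀ := rfl
  rw [h2, ← hmul, ← hmul, ← Q207.HG.cmx_add]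
  have h3 : blockDiagonal' X * pcl (fun j => (ir (Q j))⁻¹) i + pcl (fun j => (ir (Q j))⁻¹) i * (blockDiagonal' X)ᵀ = 0 := by
    rw [pcl, blockDiagonal'_transpose, ← blockDiagonal'_mul, ← blockDiagonal'_mul, ← blockDiagonal'_add, ← blockDiagonal'_zero]
    congr 1
    funext j
    show X j * (if j = i then (ir (Q j))⁻¹ else 0) + (if j = i then (ir (Q j))⁻¹ else 0) * (X j)ᵀ = 0
    by_cases h : j = i
    · rw [if_pos h]
      have hd := ir_det (hQ j).2.1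
      have h4 := congrArg (fun M => (ir (Q j))⁻¹ * M * (ir (Q j))⁻¹) (hX j)
      simp only [Matrix.mul_add, Matrix.add_mul, Matrix.mul_zero, Matrix.zero_mul] at h4
      have h5 : (ir (Q j))⁻¹ * ((X j)ᵀ * ir (Q j)) * (ir (Q j))⁻¹ = (ir (Q j))⁻¹ * (X j)ᵀ := by
        rw [Matrix.mul_assoc, Matrix.mul_assoc, Matrix.mul_nonsing_inv _ hd, Matrix.mul_one]
      have h6 : (ir (Q j))⁻¹ * (ir (Q j) * X j) * (ir (Q j))⁻¹ = X j * (ir (Q j))⁻¹ := by
        rw [← Matrix.mul_assoc, Matrix.nonsing_inv_mul _ hd, Matrix.one_mul]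
      rw [h5, h6] at h4
      rw [add_comm]
      exact h4
    · rw [if_neg h, Matrix.mul_zero, Matrix.zero_mul, add_zero]
  rw [h3, Q207.HG.cmx_zero]
  rfl

lemma ge_fl {Q : ∀ i, Matrix (Fin (n i)) (Fin (n i)) ℤ} (hQ : ∀ i, Cl (Q i)) {s : ℕ} {v : (Fin s → Σ i, Fin (n i)) → ℚ}
    (hv : Ge Q v) : Fl Q (qc v) := by
  rcases hv with h | h
  · exact isP_fl hQ h
  · exact h.2

/-- an indefinite symmetric form has rank at least two -/
lemma cl_ne_one {m : ℕ} {Q : Matrix (Fin m) (Fin m) ℤ} (hQ : Cl Q) (hs : Qᵀ = Q) : m ≠ 1 := by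
  rintro rfl
  obtain ⟨-, hd, h⟩ := hQ
  have h1 : ∀ x : Fin 1 → ℤ, x ⬝ᵥ (Q *ᵥ x) = Q 0 0 * (x 0 * x 0) := by
    intro x
    simp only [dotProduct, Matrix.mulVec, Fin.sum_univ_one, Finset.univ_unique, Finset.sum_singleton, Fin.default_eq_zero]
    ring
  rcases h with h2 | ⟨-, x, y, hx, hy⟩
  · have h3 := congrFun (congrFun (hs.symm.trans h2) 0) 0
    rw [Matrix.neg_apply] at h3
    have h4 : Q 0 0 = 0 := by omega
    apply hd
    rw [Matrix.det_unique]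
    exact h4
  · rw [h1] at hx hy
    have h3 : 0 ≤ x 0 * x 0 := mul_self_nonneg _
    have h4 : 0 ≤ y 0 * y 0 := mul_self_nonneg _
    by_cases h5 : 0 ≤ Q 0 0
    · exact absurd (mul_nonneg h5 h4) (not_le.2 hy)
    · exact absurd (mul_nonpos_of_nonpos_of_nonneg (not_le.1 h5).le h3) (not_le.2 hx)

/-- **Generators for full symplectic and orthogonal groups.** -/
theorem gen_cl2 {Q : ∀ i, Matrix (Fin (n i)) (Fin (n i)) ℤ} (hQ : ∀ i, Cl (Q i)) {q : ℕ}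
    {u : (Fin q → (Σ i, Fin (n i)) ⊕ Fin w) → ℚ} {K : ℝ}
    (hK : ∀ γ : ∀ i, Matrix (Fin (n i)) (Fin (n i)) ℚ, Iso1 Q γ → ∀ p, ‖qc (trl (hat w γ) u) p‖ ≤ K)
    {ΦV : Matrix (Σ i, Fin (n i)) (Σ i, Fin (n i)) ℂ} {ΦW : Matrix (Fin w) (Fin w) ℂ}
    (hu : lieA (fromBlocks ΦV 0 0 ΦW) (qc u) = 0)
    (hfl : ∀ (s : ℕ) (v : (Fin s → Σ i, Fin (n i)) → ℚ), Fl Q (qc v) → lieA ΦV (qc v) = 0) :
    u ∈ Submodule.span ℚ {x | ∃ (l : ℕ) (s : Fin l → ℕ) (s₀ : ℕ) (e : (Σ j, Fin (s j)) ⊕ Fin s₀ ≃ Fin q)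
      (v : ∀ j, (Fin (s j) → Σ i, Fin (n i)) → ℚ) (c : (Fin s₀ → Fin w) → ℚ), (∀ j, Ge Q (v j)) ∧
      lieA ΦW (qc c) = 0 ∧ x = mix e v c} := by
  classical
  have hrs : ∀ (s : ℕ) (v : (Fin s → Σ i, Fin (n i)) → ℂ), InvL (Hs fun i => ic (Q i)) v → (∃ i, (Q i)ᵀ = Q i ∧ s = n i) →
      v ∈ Submodule.span ℂ ((fun (x : (Fin s → Σ i, Fin (n i)) → ℚ) p => ((x p : ℚ) : ℂ)) '' {x | Ge Q x}) := by
    intro s v hv hs
    have h1 := rat_span {N : Matrix (Σ i, Fin (n i)) (Σ i, Fin (n i)) ℚ | ∃ X : ∀ i, Matrix (Fin (n i)) (Fin (n i)) ℚ,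
      (∀ i, (X i)ᵀ * ir (Q i) + ir (Q i) * X i = 0) ∧ N = blockDiagonal' X} v (by
        rintro _ ⟨X, hX, rfl⟩
        exact (fl_iff hQ v).2 hv X hX)
    refine Submodule.span_mono (Set.image_mono ?_) h1
    intro x hx
    exact Or.inr ⟨hs, fun X hX => hx _ ⟨X, hX, rfl⟩⟩
  have h0 := Pool.Agent.Q195.HT.mixed (Σ i, Fin (n i)) (Fin w) (Hs fun i => ic (Q i)) (Dc Q) (cl_gen hQ)
    (fun s => {x | Ge Q x}) (by
      intro s hs v hv
      by_cases hex : ∃ i, (Q i)ᵀ = Q i ∧ s = n i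
      · exact hrs s v hv hex
      · obtain rfl : s = 2 := hs.resolve_right hex
        obtain ⟨c, hc⟩ := Q207.GP.inv2' (B := fun i => ic (Q i)) (fun i => ic_det (hQ i).2.1) (fun i => by
          rcases (hQ i).2.2 with h | ⟨h, -⟩
          · exact Or.inl (ic_T h)
          · refine Or.inr ⟨congrArg (fun M : Matrix (Fin (n i)) (Fin (n i)) ℤ => M.map (Int.cast : ℤ → ℂ)) h, ?_⟩
            have h1 := cl_ne_one (hQ i) h
            have h2 := (hQ i).1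
            have h3 : n i ≠ 2 := fun h4 => hex ⟨i, h, h4.symm⟩
            omega) hv
        have hsum : v = ∑ i, c i • fun p : Fin 2 → Σ i, Fin (n i) => ((pcQ Q i p : ℚ) : ℂ) := by
          funext p
          rw [hc p, Finset.sum_apply]
          simp only [Pi.smul_apply, smul_eq_mul, pcQ]
          rw [sum_eq_single (p 0).1]
          · rw [pcQ_cast (fun i => (hQ i).2.1)]
            congr 1
            obtain ⟨j, a⟩ := p 0
            obtain ⟨j', b⟩ := p 1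
            rw [pcl_apply, if_pos rfl]
          · intro i _ hi
            have h4 : ∀ x y : Σ i, Fin (n i), x.1 ≠ i → pcl (fun j => (ir (Q j))⁻¹) i x y = 0 := by
              rintro ⟨j, a⟩ ⟨j', b⟩ h5
              rw [pcl_apply, if_neg h5]
            rw [h4 _ _ fun h5 => hi h5.symm, Rat.cast_zero, mul_zero]
          · intro h4
            exact absurd (mem_univ _) h4
        rw [hsum]
        refine Submodule.sum_mem _ fun i _ => Submodule.smul_mem _ _ (Submodule.subset_span ⟨pcQ Q i, Or.inl ⟨i, rfl, fun p => rfl⟩, rfl⟩))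
    ΦV ΦW (fun s _ v hv => hfl s v (ge_fl hQ hv)) q u (kill_cl hQ hK) hu
  refine Submodule.span_mono ?_ h0
  rintro _ ⟨l, s, s₀, e, v, c, h2, h3, rfl⟩
  exact ⟨l, s, s₀, e, v, c, fun j => (h2 j).2, h3, rfl⟩

end Q207.AH
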