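import Pool.Agent.Q207.GH.Orb

/-!
# Project AH: Hodge classes at a good point, for arbitrary matrices and groups
-/

set_option autoImplicit false

open Matrix Finset

namespace Q207.AH

open Q207.HG (PQ W1_pow_fin ex ex_det Grd Dt cmx)
open Q207.HT (lieA qc)
open Q207.GH

section

variable {k : ℕ} {n : Fin k → ℕ} {w : ℕ}

/-- the entries of the matrices, with matrices on the left -/
noncomputable def valA (A g : ∀ i, Matrix (Fin (n i)) (Fin (n i)) ℂ) (v : Vg n) : ℂ := (g v.1 * A v.1) v.2.1 v.2.2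

/-- all relations of bounded degree are preserved -/
def GdA (A : ∀ i, Matrix (Fin (n i)) (Fin (n i)) ℂ) (𝒢 : ∀ i, Subgroup (Matrix (Fin (n i)) (Fin (n i)) ℂ)ˣ)
    (C : Matrix (Ig n ⊕ Fin w) (Ig n ⊕ Fin w) ℂ) : Prop :=
  ∀ g : ∀ i, (Matrix (Fin (n i)) (Fin (n i)) ℂ)ˣ, (∀ i, g i ∈ 𝒢 i) →
    Rl (dg n (Fin w)) (Vc C) (valA A (fun _ => 1)) (valA A (fun i => (g i : Matrix (Fin (n i)) (Fin (n i)) ℂ)))

/-- the condition on rational matrices -/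
def InA (𝒢 : ∀ i, Subgroup (Matrix (Fin (n i)) (Fin (n i)) ℂ)ˣ) (γ : ∀ i, Matrix (Fin (n i)) (Fin (n i)) ℚ) : Prop :=
  ∀ i, ∃ g ∈ 𝒢 i, (g : Matrix (Fin (n i)) (Fin (n i)) ℂ) = cmx (γ i)

lemma InA.det {𝒢 : ∀ i, Subgroup (Matrix (Fin (n i)) (Fin (n i)) ℂ)ˣ}
    {γ : ∀ i, Matrix (Fin (n i)) (Fin (n i)) ℚ} (hγ : InA 𝒢 γ) (i : Fin k) : IsUnit (γ i).det := by
  obtain ⟨g, -, hg⟩ := hγ i
  have h1 : IsUnit (cmx (γ i)).det := by
    rw [← hg]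
    exact (Matrix.isUnit_iff_isUnit_det _).1 g.isUnit
  have h3 : (cmx (γ i)).det = algebraMap ℚ ℂ (γ i).det := (RingHom.map_det (algebraMap ℚ ℂ) (γ i)).symm
  rw [h3] at h1
  refine isUnit_iff_ne_zero.2 fun h2 => h1.ne_zero ?_
  rw [h2, map_zero]

lemma InA.inv {𝒢 : ∀ i, Subgroup (Matrix (Fin (n i)) (Fin (n i)) ℂ)ˣ}
    {γ : ∀ i, Matrix (Fin (n i)) (Fin (n i)) ℚ} (hγ : InA 𝒢 γ) : InA 𝒢 fun i => (γ i)⁻¹ := by
  intro i
  have hd := hγ.det i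
  obtain ⟨g, hg, hgγ⟩ := hγ i
  refine ⟨g⁻¹, (𝒢 i).inv_mem hg, ?_⟩
  have e1 : (cmx (γ i)⁻¹) * (g : Matrix (Fin (n i)) (Fin (n i)) ℂ) = 1 := by
    rw [hgγ]
    have e2 : cmx ((γ i)⁻¹ * γ i) = cmx (γ i)⁻¹ * cmx (γ i) := Matrix.map_mul
    rw [← e2, Matrix.nonsing_inv_mul _ hd]
    exact Matrix.map_one _ (map_zero _) (map_one _)
  have e3 : (g : Matrix (Fin (n i)) (Fin (n i)) ℂ) * ((g⁻¹ : (Matrix (Fin (n i)) (Fin (n i)) ℂ)ˣ) : Matrix (Fin (n i)) (Fin (n i)) ℂ) = 1 :=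
    Units.mul_inv g
  calc ((g⁻¹ : (Matrix (Fin (n i)) (Fin (n i)) ℂ)ˣ) : Matrix (Fin (n i)) (Fin (n i)) ℂ) =
        (cmx (γ i)⁻¹ * (g : Matrix (Fin (n i)) (Fin (n i)) ℂ)) * ((g⁻¹ : (Matrix (Fin (n i)) (Fin (n i)) ℂ)ˣ) : Matrix (Fin (n i)) (Fin (n i)) ℂ) := by
        rw [e1, Matrix.one_mul]
    _ = _ := by rw [Matrix.mul_assoc, e3, Matrix.mul_one]

lemma Gv_valA (A g : ∀ i, Matrix (Fin (n i)) (Fin (n i)) ℂ) :
    Gv (valA A g) = (blockDiagonal' A)ᵀ * (blockDiagonal' g)ᵀ := by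
  unfold Gv
  rw [← Matrix.transpose_mul, ← blockDiagonal'_mul, blockDiagonal'_transpose]
  rfl

lemma Z_mvA {A : ∀ i, Matrix (Fin (n i)) (Fin (n i)) ℂ} (γ : ∀ i, Matrix (Fin (n i)) (Fin (n i)) ℚ)
    (CW : Matrix (Fin w) (Fin w) ℂ) :
    ex (Fin w) (Gv (valA A (fun i => cmx (γ i)))) * fromBlocks 1 0 0 CW =
      (ex (Fin w) (Gv (valA A (fun _ => 1))) * fromBlocks 1 0 0 CW) * (cmx (hat w γ))ᵀ := by
  have h1 : cmx (hat w γ) = fromBlocks (blockDiagonal' fun i => cmx (γ i)) 0 0 1 := by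
    show (hat w γ).map (algebraMap ℚ ℂ) = _
    unfold hat
    rw [fromBlocks_map, blockDiagonal'_map _ _ (map_zero _), Matrix.map_zero _ (map_zero _), Matrix.map_zero _ (map_zero _),
      Matrix.map_one _ (map_zero _) (map_one _)]
  rw [h1, fromBlocks_transpose, Matrix.transpose_zero, Matrix.transpose_zero, Matrix.transpose_one, Gv_valA, Gv_valA]
  have h2 : (blockDiagonal' fun i => (1 : Matrix (Fin (n i)) (Fin (n i)) ℂ)) = 1 := blockDiagonal'_one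
  rw [h2, Matrix.transpose_one, Matrix.mul_one]
  show fromBlocks _ 0 0 1 * fromBlocks 1 0 0 CW = fromBlocks _ 0 0 1 * fromBlocks 1 0 0 CW * fromBlocks _ 0 0 1
  rw [fromBlocks_multiply, fromBlocks_multiply, fromBlocks_multiply]
  simp

/-- **Hodge classes at a good point are stable.** -/
theorem moveA {A : ∀ i, Matrix (Fin (n i)) (Fin (n i)) ℂ} {𝒢 : ∀ i, Subgroup (Matrix (Fin (n i)) (Fin (n i)) ℂ)ˣ}
    {CW ΦW : Matrix (Fin w) (Fin w) ℂ} {levW : Fin w → ℤ} {W : ℤ → Submodule ℂ (Fin w → ℂ)} (hW : DirectSum.IsInternal W)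
    (hWc : ∀ p, ∀ v ∈ W p, (fun a => (starRingEnd ℂ) (v a)) ∈ W (-p)) (hCW : IsUnit CW.det) (hmem : ∀ a, CW a ∈ W (levW a))
    (hΦW : ∀ p, ∀ v ∈ W p, v ᵥ* ΦW = (p : ℂ) • v) (hG : GdA A 𝒢 (fromBlocks 1 0 0 CW)) {lev : Ig n → ℤ}
    {H : ℤ → Submodule ℂ (Ig n → ℂ)} (hH : DirectSum.IsInternal H)
    (hHc : ∀ p, ∀ v ∈ H p, (fun a => (starRingEnd ℂ) (v a)) ∈ H (-p))
    (hfil : ∀ p, (⨆ q : {q : ℤ // p ≤ q}, H q) =
      Submodule.span ℂ {v | ∃ a, p ≤ lev a ∧ v = (blockDiagonal' A)ᵀ a})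
    {Φ : Matrix (Ig n ⊕ Fin w) (Ig n ⊕ Fin w) ℂ} (hΦ : ∀ p, ∀ v ∈ op H W p, v ᵥ* Φ = (p : ℂ) • v)
    {q : ℕ} {u : (Fin q → Ig n ⊕ Fin w) → ℚ} (hu : lieA Φᵀ (qc u) = 0) {γ : ∀ i, Matrix (Fin (n i)) (Fin (n i)) ℚ}
    (hγ : InA 𝒢 γ) : lieA Φᵀ (qc (trl (hat w γ) u)) = 0 := by
  have hGv : Gv (valA A (fun _ => 1)) = (blockDiagonal' A)ᵀ := by
    rw [Gv_valA]
    have h2 : (blockDiagonal' fun i => (1 : Matrix (Fin (n i)) (Fin (n i)) ℂ)) = 1 := blockDiagonal'_one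
    rw [h2, Matrix.transpose_one, Matrix.mul_one]
  rw [← hGv] at hfil
  have hGd : IsUnit (Gv (valA A (fun _ => 1))).det := det_of_fil hH hfil
  have hZ0 : ex (Fin w) (Gv (valA A (fun _ => 1))) * fromBlocks 1 0 0 CW = fromBlocks (Gv (valA A (fun _ => 1))) 0 0 CW := by
    show fromBlocks _ 0 0 1 * fromBlocks 1 0 0 CW = _
    rw [fromBlocks_multiply]
    simp
  have hC : IsUnit (fromBlocks (1 : Matrix (Ig n) (Ig n) ℂ) 0 0 CW).det := by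
    rw [Matrix.det_fromBlocks_zero₂₁, Matrix.det_one, one_mul]
    exact hCW
  have hZd : IsUnit (fromBlocks (Gv (valA A (fun _ => 1))) 0 0 CW).det := by
    rw [Matrix.det_fromBlocks_zero₂₁]
    exact hGd.mul hCW
  set Z := fromBlocks (Gv (valA A (fun _ => 1))) 0 0 CW with hZ
  -- comparison of the minors
  have hle : ∀ γ : ∀ i, Matrix (Fin (n i)) (Fin (n i)) ℚ, InA 𝒢 γ → Le (Sum.elim lev levW) Z (Z * (cmx (hat w γ))ᵀ) := by
    intro γ hγ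
    have hγ' := hγ
    choose g hg hgγ using hγ'
    have h1 := hG g hg
    have e1 : (fun i => (g i : Matrix (Fin (n i)) (Fin (n i)) ℂ)) = fun i => cmx (γ i) := funext hgγ
    rw [e1] at h1
    have hd : IsUnit (Gv (valA A (fun i => cmx (γ i)))).det := by
      have e2 : Gv (valA A (fun i => cmx (γ i))) = Gv (valA A (fun _ => 1)) * (blockDiagonal' fun i => cmx (γ i))ᵀ := by
        rw [Gv_valA, hGv]
      rw [e2, Matrix.det_mul, Matrix.det_transpose]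
      refine hGd.mul ?_
      refine (Matrix.isUnit_iff_isUnit_det _).1 ⟨⟨blockDiagonal' fun i => cmx (γ i),
        blockDiagonal' fun i => ((g i)⁻¹ : (Matrix (Fin (n i)) (Fin (n i)) ℂ)ˣ), ?_, ?_⟩, rfl⟩
      · rw [← blockDiagonal'_mul]
        refine Eq.trans (congrArg blockDiagonal' (funext fun i => ?_)) blockDiagonal'_one
        rw [← hgγ i]
        exact Units.mul_inv _
      · rw [← blockDiagonal'_mul]
        refine Eq.trans (congrArg blockDiagonal' (funext fun i => ?_)) blockDiagonal'_one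
        rw [← hgγ i]
        exact Units.inv_mul _
    have h2 := le_of (lev := Sum.elim lev levW) hC hGd hd h1
    rw [Z_mvA γ CW, hZ0] at h2
    exact h2
  -- the inverse
  have hγi := hγ.inv
  have hdet := fun i => hγ.det i
  have hdeti := fun i => hγi.det i
  have h3 : (hat w fun i => (γ i)⁻¹)⁻¹ = hat w γ := by
    rw [hat_inv hdeti]
    congr 1
    funext i
    exact Matrix.nonsing_inv_nonsing_inv _ (hdet i)
  have h4 := stab cnj (lev := Sum.elim lev levW) hZd (op_int hH hW) (op_conj hHc hWc) (op_fil hfil hCW hmem hΦW) hΦ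
    (γ := hat w fun i => (γ i)⁻¹) (hat_det hdeti) (hle _ hγi) (le_back hZd (hat_det hdeti) (by
      rw [h3]
      exact hle γ hγ)) hu
  rw [h3] at h4
  exact h4

end

end Q207.AH
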