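import Pool.Agent.Q207.AH.Dt2

/-!
# Project AH: tensors on a sum whose sections are flat
-/

set_option autoImplicit false

open Finset Matrix

namespace Q207.AH

open Q207.DB Q207.HT Pool.Agent.Q195.HT
open Q207.GH (trl)

/-- rational tensors on a sum with given sections (the proof is that of Q195/HT/Mix) -/
theorem mixF {K J : Type} [Fintype K] [DecidableEq K] [Fintype J] [DecidableEq J] (VQ : ∀ s : ℕ, Set ((Fin s → K) → ℚ))
    {Φ : Matrix K K ℂ} {Φ' : Matrix J J ℂ} (hΦ : ∀ s, ∀ v ∈ VQ s, lieA Φ (fun p => ((v p : ℚ) : ℂ)) = 0) {r : ℕ}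
    {u : (Fin r → K ⊕ J) → ℚ} (hF0 : ∀ (σ : Fin r → Bool) b, (fun a => u (glue σ a b)) ∈ Submodule.span ℚ
      {g | ∃ (l : ℕ) (s : Fin l → ℕ) (e : (Σ j, Fin (s j)) ≃ {k : Fin r // σ k = true}) (v : ∀ j, (Fin (s j) → K) → ℚ),
        (∀ j, v j ∈ VQ (s j)) ∧ g = prodQ e v})
    (hΦΦ : lieA (fromBlocks Φ 0 0 Φ') (fun p => ((u p : ℚ) : ℂ)) = 0) :
    u ∈ Submodule.span ℚ {x | ∃ (l : ℕ) (s : Fin l → ℕ) (s₀ : ℕ) (e : (Σ j, Fin (s j)) ⊕ Fin s₀ ≃ Fin r)
      (v : ∀ j, (Fin (s j) → K) → ℚ) (c : (Fin s₀ → J) → ℚ), (∀ j, v j ∈ VQ (s j)) ∧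
      lieA Φ' (fun p => ((c p : ℚ) : ℂ)) = 0 ∧ x = mix e v c} := by
  classical
  set target : Submodule ℚ ((Fin r → K ⊕ J) → ℚ) :=
    Submodule.span ℚ {x | ∃ (l : ℕ) (s : Fin l → ℕ) (s₀ : ℕ) (e : (Σ j, Fin (s j)) ⊕ Fin s₀ ≃ Fin r)
      (v : ∀ j, (Fin (s j) → K) → ℚ) (c : (Fin s₀ → J) → ℚ), (∀ j, v j ∈ VQ (s j)) ∧
      lieA Φ' (fun p => ((c p : ℚ) : ℂ)) = 0 ∧ x = mix e v c} with htarget
  -- one type
  have key : ∀ σ : Fin r → Bool, ∃ uσ : (Fin r → K ⊕ J) → ℚ, uσ ∈ target ∧ (∀ a b, uσ (glue σ a b) = u (glue σ a b)) ∧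
      ∀ p, (∀ a b, p ≠ glue σ a b) → uσ p = 0 := by
    intro σ
    set P : Set (({k : Fin r // σ k = true} → K) → ℚ) := {g | ∃ (l : ℕ) (s : Fin l → ℕ)
      (e : (Σ j, Fin (s j)) ≃ {k : Fin r // σ k = true}) (v : ∀ j, (Fin (s j) → K) → ℚ),
      (∀ j, v j ∈ VQ (s j)) ∧ g = prodQ e v} with hP
    set G := Submodule.span ℚ P with hG
    have hF : ∀ b, (fun a => u (glue σ a b)) ∈ G := hF0 σ
    -- Leibniz
    have hL : ∀ g ∈ G, lieA Φ (fun a : {k : Fin r // σ k = true} → K => ((g a : ℚ) : ℂ)) = 0 := by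
      intro g hg
      induction hg using Submodule.span_induction with
      | mem g hg =>
        obtain ⟨l, s, e, v, hv, rfl⟩ := hg
        rw [cast_prodQ]
        exact lieA_prodT e fun j => hΦ _ _ (hv j)
      | zero =>
        have h1 : (fun a : {k : Fin r // σ k = true} → K => (((0 : ({k : Fin r // σ k = true} → K) → ℚ) a : ℚ) : ℂ)) = 0 := by
          funext a
          simp
        rw [h1, map_zero]
      | add g g' _ _ ih ih' =>
        have h1 : (fun a : {k : Fin r // σ k = true} → K => (((g + g') a : ℚ) : ℂ)) =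
            (fun a => ((g a : ℚ) : ℂ)) + fun a => ((g' a : ℚ) : ℂ) := by
          funext a
          simp
        rw [h1, map_add, ih, ih', add_zero]
      | smul z g _ ih =>
        have h1 : (fun a : {k : Fin r // σ k = true} → K => (((z • g) a : ℚ) : ℂ)) =
            (z : ℂ) • (fun a => ((g a : ℚ) : ℂ)) := by
          funext a
          simp
        rw [h1, map_smul, ih, smul_zero]
    let B := Module.finBasis ℚ G
    set bb : Fin (Module.finrank ℚ G) → ({k : Fin r // σ k = true} → K) → ℚ := fun m => (B m : ({k : Fin r // σ k = true} → K) → ℚ) with hbb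
    have hbi : LinearIndependent ℚ bb := B.linearIndependent.map' G.subtype (Submodule.ker_subtype G)
    set cc : Fin (Module.finrank ℚ G) → ({k : Fin r // ¬ σ k = true} → J) → ℚ := fun m b =>
      B.repr ⟨fun a => u (glue σ a b), hF b⟩ m with hcc
    have hexp : ∀ a b, u (glue σ a b) = ∑ m, bb m a * cc m b := by
      intro a b
      have h1 := B.sum_repr ⟨fun a => u (glue σ a b), hF b⟩
      have h2 := congrArg (fun g : G => (g : ({k : Fin r // σ k = true} → K) → ℚ) a) h1
      simp only [Submodule.coe_sum, Submodule.coe_smul, Finset.sum_apply, Pi.smul_apply, smul_eq_mul] at h2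
      rw [← h2]
      exact sum_congr rfl fun m _ => mul_comm _ _
    have hcΦ : ∀ m, lieA Φ' (fun b => ((cc m b : ℚ) : ℂ)) = 0 := by
      intro m
      funext b
      refine indepQ hbi (z := fun m => lieA Φ' (fun b => ((cc m b : ℚ) : ℂ)) b) (fun a => ?_) m
      have h1 := congrFun hΦΦ (glue σ a b)
      rw [lieA_glue, hL _ (hF b)] at h1
      have h2 : (fun b' => ((u (glue σ a b') : ℚ) : ℂ)) =
          fun b' => ∑ m, ((bb m a : ℚ) : ℂ) * (fun b => ((cc m b : ℚ) : ℂ)) b' := by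
        funext b'
        rw [hexp]
        push_cast
        rfl
      rw [h2, lieA_sum_mul, Pi.zero_apply, zero_add] at h1
      rw [Pi.zero_apply] at h1
      rw [← h1]
      exact sum_congr rfl fun m _ => mul_comm _ _
    refine ⟨∑ m, join σ (cc m) (bb m), ?_, ?_, ?_⟩
    · refine Submodule.sum_mem _ fun m _ => ?_
      have h1 : G ≤ target.comap (join σ (cc m)) := by
        rw [hG, Submodule.span_le]
        rintro g ⟨l, s, e, v, hv, rfl⟩
        show join σ (cc m) (prodQ e v) ∈ target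
        rw [join_prodQ σ (cc m) e v (Fintype.equivFin {k : Fin r // ¬ σ k = true}).symm]
        refine Submodule.subset_span ⟨l, s, _, _, v, _, hv, ?_, rfl⟩
        exact lieA_reindex (Fintype.equivFin {k : Fin r // ¬ σ k = true}).symm Φ'
          (fun b => ((cc m b : ℚ) : ℂ)) (hcΦ m)
      exact h1 (B m).2
    · intro a b
      rw [Finset.sum_apply, hexp]
      exact sum_congr rfl fun m _ => join_glue σ _ _ a b
    · intro p hp
      rw [Finset.sum_apply]
      exact sum_eq_zero fun m _ => join_not σ _ _ hp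
  choose uσ h1 h2 h3 using key
  have hsum : u = ∑ σ, uσ σ := by
    funext p
    rw [Finset.sum_apply, Finset.sum_eq_single fun k => (p k).isLeft]
    · obtain ⟨a, b, hab⟩ := exists_glue (fun k => (p k).isLeft) (p := p) (fun k hk => hk) (fun k hk => by
        rcases hpk : p k with x | x
        · rw [hpk] at hk
          exact absurd rfl hk
        · rfl)
      have h4 := h2 (fun k => (p k).isLeft) a b
      rw [← hab] at h4
      exact h4.symm
    · intro σ _ hσ
      apply h3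
      intro a b hab
      apply hσ
      funext k
      rw [hab]
      by_cases hk : σ k = true
      · have h4 := glue_left (a := a) (b := b) ⟨k, hk⟩
        rw [show ((⟨k, hk⟩ : {k : Fin r // σ k = true}) : Fin r) = k from rfl] at h4
        rw [h4, hk]
        rfl
      · have h4 := glue_right (a := a) (b := b) ⟨k, hk⟩
        rw [show ((⟨k, hk⟩ : {k : Fin r // ¬ σ k = true}) : Fin r) = k from rfl] at h4
        rw [h4, Bool.eq_false_of_not_eq_true hk]
        rfl
    · intro h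
      exact absurd (mem_univ _) h
  rw [hsum]
  exact Submodule.sum_mem _ fun σ _ => h1 σ


section orb

variable {K J : Type} [Fintype K] [DecidableEq K] [Fintype J] [DecidableEq J] {r : ℕ}

lemma trl_glue (g : Matrix K K ℚ) (u : (Fin r → K ⊕ J) → ℚ) (σ : Fin r → Bool) (a : {k : Fin r // σ k = true} → K)
    (b : {k : Fin r // ¬ σ k = true} → J) :
    trl (fromBlocks g 0 0 (1 : Matrix J J ℚ)) u (glue σ a b) = trl g (fun a' => u (glue σ a' b)) a := by
  unfold trl
  symm
  apply Fintype.sum_of_injective (fun a' : {k : Fin r // σ k = true} → K => glue σ a' b)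
  · intro a₁ a₂ h
    have h1 := glue_inj (a₁ := (a₁, b)) (a₂ := (a₂, b)) h
    exact congrArg Prod.fst h1
  · intro y hy
    have h1 : ∃ l, fromBlocks g 0 0 (1 : Matrix J J ℚ) (glue σ a b l) (y l) = 0 := by
      by_contra hcon
      push Not at hcon
      apply hy
      have h2 : ∀ k, σ k = true → (y k).isLeft = true := by
        intro k hk
        rcases hyk : y k with c | c
        · rfl
        · exfalso
          apply hcon k
          rw [hyk, show glue σ a b k = Sum.inl (a ⟨k, hk⟩) from glue_left ⟨k, hk⟩, fromBlocks_apply₁₂, Matrix.zero_apply]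
      have h3 : ∀ k, ¬ σ k = true → (y k).isRight = true := by
        intro k hk
        rcases hyk : y k with c | c
        · exfalso
          apply hcon k
          rw [hyk, show glue σ a b k = Sum.inr (b ⟨k, hk⟩) from glue_right ⟨k, hk⟩, fromBlocks_apply₂₁, Matrix.zero_apply]
        · rfl
      obtain ⟨a', b', rfl⟩ := exists_glue σ h2 h3
      refine ⟨a', ?_⟩
      have h4 : b = b' := by
        funext k
        by_contra hne
        apply hcon k.1
        rw [glue_right k, glue_right k, fromBlocks_apply₂₂, Matrix.one_apply_ne hne]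
      rw [h4]
    obtain ⟨l, hl⟩ := h1
    rw [prod_eq_zero (mem_univ l) hl, zero_mul]
  · intro a'
    congr 1
    rw [← Fintype.prod_subtype_mul_prod_subtype (fun k => σ k = true)]
    have h1 : ∏ i : {k : Fin r // ¬ σ k = true}, fromBlocks g 0 0 (1 : Matrix J J ℚ) (glue σ a b i) (glue σ a' b i) = 1 := by
      refine prod_eq_one fun i _ => ?_
      rw [glue_right, glue_right, fromBlocks_apply₂₂, Matrix.one_apply_eq]
    rw [h1, mul_one]
    refine prod_congr rfl fun i _ => ?_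
    rw [glue_left, glue_left, fromBlocks_apply₁₁]

/-- finite orbit -/
def Fo (Γ : Set (Matrix K K ℚ)) {κ : Type} [Fintype κ] [DecidableEq κ] (v : (κ → K) → ℚ) : Prop :=
  {x | ∃ g ∈ Γ, x = trl g v}.Finite

lemma fo_sec {Γ : Set (Matrix K K ℚ)} {u : (Fin r → K ⊕ J) → ℚ}
    (hu : {x | ∃ g ∈ Γ, x = trl (fromBlocks g 0 0 (1 : Matrix J J ℚ)) u}.Finite) (σ : Fin r → Bool)
    (b : {k : Fin r // ¬ σ k = true} → J) : Fo Γ fun a => u (glue σ a b) := by
  refine (hu.image fun x a => x (glue σ a b)).subset ?_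
  rintro _ ⟨g, hg, rfl⟩
  refine ⟨_, ⟨g, hg, rfl⟩, ?_⟩
  funext a
  exact trl_glue g u σ a b

lemma fo_ren {Γ : Set (Matrix K K ℚ)} {κ κ' : Type} [Fintype κ] [DecidableEq κ] [Fintype κ'] [DecidableEq κ'] (η : κ ≃ κ')
    {v : (κ → K) → ℚ} (hv : Fo Γ v) : Fo Γ fun z : κ' → K => v fun k => z (η k) := by
  refine (hv.image fun x z => x fun k => z (η k)).subset ?_
  rintro _ ⟨g, hg, rfl⟩
  refine ⟨_, ⟨g, hg, rfl⟩, ?_⟩
  funext z
  unfold trl
  refine (Fintype.sum_equiv (Equiv.arrowCongr η (Equiv.refl K)) _ _ fun y => ?_)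
  congr 1
  · refine Fintype.prod_equiv η _ _ fun k => ?_
    show g (z (η k)) (y k) = g (z (η k)) (y (η.symm (η k)))
    rw [Equiv.symm_apply_apply]
  · congr 1
    funext k
    show y k = y (η.symm (η k))
    rw [Equiv.symm_apply_apply]

/-- **Tensors with finite orbits.** -/
theorem gen_fo {Γ : Set (Matrix K K ℚ)} {Φ : Matrix K K ℂ} {Φ' : Matrix J J ℂ} {u : (Fin r → K ⊕ J) → ℚ}
    (hu : {x | ∃ g ∈ Γ, x = trl (fromBlocks g 0 0 (1 : Matrix J J ℚ)) u}.Finite)
    (hΦ : ∀ s ≤ r, ∀ v : (Fin s → K) → ℚ, Fo Γ v → lieA Φ (fun p => ((v p : ℚ) : ℂ)) = 0)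
    (hΦΦ : lieA (fromBlocks Φ 0 0 Φ') (fun p => ((u p : ℚ) : ℂ)) = 0) :
    u ∈ Submodule.span ℚ {x | ∃ (l : ℕ) (s : Fin l → ℕ) (s₀ : ℕ) (e : (Σ j, Fin (s j)) ⊕ Fin s₀ ≃ Fin r)
      (v : ∀ j, (Fin (s j) → K) → ℚ) (c : (Fin s₀ → J) → ℚ), (∀ j, s j ≤ r ∧ Fo Γ (v j)) ∧
      lieA Φ' (fun p => ((c p : ℚ) : ℂ)) = 0 ∧ x = mix e v c} := by
  refine mixF (fun s => {v | s ≤ r ∧ Fo Γ v}) (fun s v hv => hΦ s hv.1 v hv.2) (fun σ b => ?_) hΦΦ
  set η := Fintype.equivFin {k : Fin r // σ k = true}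
  let e : (Σ _ : Fin 1, Fin (Fintype.card {k : Fin r // σ k = true})) ≃ {k : Fin r // σ k = true} :=
    (Equiv.uniqueSigma fun _ : Fin 1 => Fin (Fintype.card {k : Fin r // σ k = true})).trans η.symm
  refine Submodule.subset_span ⟨1, fun _ => Fintype.card {k : Fin r // σ k = true}, e,
    fun _ z => u (glue σ (fun k => z (η k)) b), fun _ => ⟨?_, ?_⟩, ?_⟩
  · refine (Fintype.card_subtype_le _).trans ?_
    rw [Fintype.card_fin]
  · exact fo_ren η (fo_sec hu σ b)
  · funext z
    unfold prodQ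
    rw [Fin.prod_univ_one]
    congr 2
    funext k
    show z k = z (η.symm (η k))
    rw [Equiv.symm_apply_apply]

end orb

end Q207.AH
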